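import Pool.Agent.helper90.ZD.SpecB

/-!
# Project zd, module BLS: the large sieve, vector form
-/

set_option autoImplicit false

open Complex MeasureTheory
open scoped ComplexOrder

namespace Pool.Agent.ZD

open Pool.Agent.helper84.DM Pool.Agent.helper78.ED Pool.Agent.DH

/-- an exponential sum -/
noncomputable def BLS_F {J : Type} (js : Finset J) (a : J → ℂ) (m : J → ℝ) (x : ℝ) : ℂ :=
  ∑ j ∈ js, a j * Complex.exp (((x * m j : ℝ) : ℂ) * I)

theorem BLS_deriv {J : Type} (js : Finset J) (a : J → ℂ) (m : J → ℝ) (x : ℝ) :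
    HasDerivAt (fun x : ℝ => BLS_F js a m x) (BLS_F js (fun j => (m j : ℂ) * I * a j) m x) x := by
  unfold BLS_F
  refine HasDerivAt.fun_sum (fun j _ => ?_)
  have h1 : HasDerivAt (fun x : ℝ => ((x * m j : ℝ) : ℂ) * I) ((m j : ℂ) * I) x := by
    have h := ((hasDerivAt_id x).mul_const (m j)).ofReal_comp.mul_const I
    simpa using h
  have h2 := h1.cexp.const_mul (a j)
  have e : (m j : ℂ) * I * a j * Complex.exp (((x * m j : ℝ) : ℂ) * I) =
      a j * (Complex.exp (((x * m j : ℝ) : ℂ) * I) * ((m j : ℂ) * I)) := by ring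
  rw [e]
  exact h2

theorem BLS_cont {J : Type} (js : Finset J) (a : J → ℂ) (m : J → ℝ) :
    Continuous (fun x : ℝ => BLS_F js a m x) :=
  continuous_iff_continuousAt.mpr (fun x => (BLS_deriv js a m x).continuousAt)

theorem BLS_one (h1 : BG1_stmt) (h2 : BGD_stmt) (h3 : BLG_stmt) {J : Type} (js : Finset J) (a : J → ℂ)
    (m : J → ℝ) (T : ℝ) (W : Finset ℝ) (hT : 1 ≤ T) (hW : Sep 0 T W) :
    ∑ t ∈ W, ‖BLS_F js a m t‖ ^ 2 ≤ Real.exp 9 *
      (2 * (∫ x : ℝ, ‖BLS_F js a m x‖ ^ 2 * Real.exp (-(x / T) ^ 2)) +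
        1 / 2 * (∫ x : ℝ, ‖BLS_F js (fun j => (m j : ℂ) * I * a j) m x‖ ^ 2 * Real.exp (-(x / T) ^ 2))) := by
  have hT0 : 0 < T := by linarith
  set F : ℝ → ℂ := fun x => BLS_F js a m x with hF
  set G : ℝ → ℂ := fun x => BLS_F js (fun j => (m j : ℂ) * I * a j) m x with hG
  have hFc : Continuous F := BLS_cont js a m
  have hGc : Continuous G := BLS_cont js _ m
  set g : ℝ → ℝ := fun x => 1 / (1 / 2) * ‖F x‖ ^ 2 + 1 / 2 * ‖G x‖ ^ 2 with hg
  have hgc : Continuous g := by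
    rw [hg]
    fun_prop
  have hg0 : ∀ x, 0 ≤ g x := fun x => by
    simp only [hg]
    positivity
  have hIF : Integrable (fun x : ℝ => ‖F x‖ ^ 2 * Real.exp (-(x / T) ^ 2)) := (h3 J js a m T hT0).1
  have hIG : Integrable (fun x : ℝ => ‖G x‖ ^ 2 * Real.exp (-(x / T) ^ 2)) :=
    (h3 J js (fun j => (m j : ℂ) * I * a j) m T hT0).1
  have hgE : (fun x : ℝ => g x * Real.exp (-(x / T) ^ 2)) = fun x => 2 * (‖F x‖ ^ 2 * Real.exp (-(x / T) ^ 2)) +
      1 / 2 * (‖G x‖ ^ 2 * Real.exp (-(x / T) ^ 2)) := by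
    funext x
    simp only [hg]
    ring
  have hIg : Integrable (fun x : ℝ => g x * Real.exp (-(x / T) ^ 2)) := by
    rw [hgE]
    exact (hIF.const_mul 2).add (hIG.const_mul (1 / 2))
  have hle : T - 1 / 2 ≤ 2 * T + 1 / 2 := by linarith
  calc ∑ t ∈ W, ‖F t‖ ^ 2 ≤ ∑ t ∈ W, ∫ x in (t - 1 / 2)..(t + 1 / 2), g x :=
        Finset.sum_le_sum (fun t _ => h1 F G (fun x => BLS_deriv js a m x) hGc t (1 / 2) (by norm_num))
    _ ≤ ∫ x in (T - 1 / 2)..(2 * T + 1 / 2), g x := h2 T W g hT hW hgc hg0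
    _ ≤ ∫ x in (T - 1 / 2)..(2 * T + 1 / 2), Real.exp 9 * (g x * Real.exp (-(x / T) ^ 2)) := by
        refine intervalIntegral.integral_mono_on hle (hgc.intervalIntegrable _ _)
          ((hIg.const_mul (Real.exp 9)).intervalIntegrable) ?_
        intro x hx
        have hx1 : |x / T| ≤ 3 := by
          rw [abs_div, abs_of_pos hT0, div_le_iff₀ hT0]
          refine abs_le.mpr ⟨by linarith [hx.1], by linarith [hx.2]⟩
        have hx2 : (x / T) ^ 2 ≤ 9 := by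
          have h := sq_le_sq' (abs_le.mp hx1).1 (abs_le.mp hx1).2
          linarith
        have hx3 : 1 ≤ Real.exp 9 * Real.exp (-(x / T) ^ 2) := by
          rw [← Real.exp_add]
          exact Real.one_le_exp (by linarith)
        calc g x = 1 * g x := (one_mul _).symm
          _ ≤ (Real.exp 9 * Real.exp (-(x / T) ^ 2)) * g x := mul_le_mul_of_nonneg_right hx3 (hg0 x)
          _ = Real.exp 9 * (g x * Real.exp (-(x / T) ^ 2)) := by ring
    _ = Real.exp 9 * ∫ x in (T - 1 / 2)..(2 * T + 1 / 2), g x * Real.exp (-(x / T) ^ 2) :=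
        intervalIntegral.integral_const_mul _ _
    _ ≤ Real.exp 9 * ∫ x : ℝ, g x * Real.exp (-(x / T) ^ 2) := by
        refine mul_le_mul_of_nonneg_left ?_ (Real.exp_pos _).le
        rw [intervalIntegral.integral_of_le hle]
        exact setIntegral_le_integral hIg (Filter.Eventually.of_forall
          (fun x => mul_nonneg (hg0 x) (Real.exp_pos _).le))
    _ = _ := by
        congr 1
        rw [hgE, integral_add (hIF.const_mul 2) (hIG.const_mul (1 / 2)), integral_const_mul, integral_const_mul]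

theorem BLS_two (h3 : BLG_stmt) {J K : Type} (js : Finset J) (ks : Finset K) (β : K → J → ℂ)
    (m : J → ℝ) (T : ℝ) (hT : 0 < T) :
    ∑ k ∈ ks, ∫ x : ℝ, ‖BLS_F js (β k) m x‖ ^ 2 * Real.exp (-(x / T) ^ 2) ≤
      Real.sqrt Real.pi * T * ∑ j ∈ js, ∑ j' ∈ js,
        ‖∑ k ∈ ks, β k j * (starRingEnd ℂ) (β k j')‖ * Real.exp (-(T * (m j - m j')) ^ 2 / 4) := by
  have hc : ((∑ k ∈ ks, ∫ x : ℝ, ‖BLS_F js (β k) m x‖ ^ 2 * Real.exp (-(x / T) ^ 2) : ℝ) : ℂ) =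
      ((Real.sqrt Real.pi * T : ℝ) : ℂ) * ∑ j ∈ js, ∑ j' ∈ js,
        (∑ k ∈ ks, β k j * (starRingEnd ℂ) (β k j')) * ((Real.exp (-(T * (m j - m j')) ^ 2 / 4) : ℝ) : ℂ) := by
    rw [ofReal_sum]
    have h : ∀ k ∈ ks, ((∫ x : ℝ, ‖BLS_F js (β k) m x‖ ^ 2 * Real.exp (-(x / T) ^ 2) : ℝ) : ℂ) =
        ((Real.sqrt Real.pi * T : ℝ) : ℂ) * ∑ j ∈ js, ∑ j' ∈ js, β k j * (starRingEnd ℂ) (β k j') *
          ((Real.exp (-(T * (m j - m j')) ^ 2 / 4) : ℝ) : ℂ) := fun k _ => (h3 J js (β k) m T hT).2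
    rw [Finset.sum_congr rfl h, ← Finset.mul_sum, Finset.sum_comm]
    congr 1
    refine Finset.sum_congr rfl (fun j _ => ?_)
    rw [Finset.sum_comm]
    refine Finset.sum_congr rfl (fun j' _ => ?_)
    rw [Finset.sum_mul]
  have h0 : (0 : ℝ) ≤ Real.sqrt Real.pi * T := by positivity
  calc ∑ k ∈ ks, ∫ x : ℝ, ‖BLS_F js (β k) m x‖ ^ 2 * Real.exp (-(x / T) ^ 2)
      ≤ ‖((∑ k ∈ ks, ∫ x : ℝ, ‖BLS_F js (β k) m x‖ ^ 2 * Real.exp (-(x / T) ^ 2) : ℝ) : ℂ)‖ := by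
        rw [norm_real]
        exact le_abs_self _
    _ ≤ _ := by
        rw [hc, norm_mul, norm_real, Real.norm_of_nonneg h0]
        refine mul_le_mul_of_nonneg_left ?_ h0
        refine (norm_sum_le _ _).trans (Finset.sum_le_sum (fun j _ => ?_))
        refine (norm_sum_le _ _).trans (Finset.sum_le_sum (fun j' _ => ?_))
        rw [norm_mul, norm_real, Real.norm_of_nonneg (Real.exp_pos _).le]

theorem BLS_num : Real.exp 9 * Real.sqrt Real.pi * (5 / 2) ≤ 10 ^ 5 := by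
  have h1 : Real.exp 9 ≤ 8104 := by
    have h2 : Real.exp 9 = Real.exp 1 ^ 9 := by
      rw [← Real.exp_nat_mul]
      norm_num
    rw [h2]
    have h3 : Real.exp 1 < 2.7182818286 := Real.exp_one_lt_d9
    have h4 : Real.exp 1 ^ 9 ≤ (2.7182818286 : ℝ) ^ 9 :=
      pow_le_pow_left₀ (Real.exp_pos 1).le h3.le 9
    refine h4.trans ?_
    norm_num
  have h5 : Real.sqrt Real.pi ≤ 2 := by
    rw [Real.sqrt_le_left (by norm_num)]
    have := Real.pi_lt_four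
    linarith
  have h6 : 0 ≤ Real.sqrt Real.pi := Real.sqrt_nonneg _
  have h7 : Real.exp 9 * Real.sqrt Real.pi ≤ 8104 * 2 := mul_le_mul h1 h5 h6 (by norm_num)
  nlinarith

theorem BLS (h1 : BG1_stmt) (h2 : BGD_stmt) (h3 : BLG_stmt) : BLS_stmt := by
  intro J K js ks α m Λ T W hT hΛ hW hm
  have hT0 : 0 < T := by linarith
  set S : ℝ := ∑ j ∈ js, ∑ j' ∈ js,
      ‖∑ k ∈ ks, α k j * (starRingEnd ℂ) (α k j')‖ * Real.exp (-(T * (m j - m j')) ^ 2 / 4) with hS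
  have hS0 : 0 ≤ S := by
    refine Finset.sum_nonneg (fun j _ => Finset.sum_nonneg (fun j' _ => ?_))
    positivity
  have hA : ∑ k ∈ ks, ∫ x : ℝ, ‖BLS_F js (α k) m x‖ ^ 2 * Real.exp (-(x / T) ^ 2) ≤
      Real.sqrt Real.pi * T * S := BLS_two h3 js ks α m T hT0
  have hB : ∑ k ∈ ks, ∫ x : ℝ, ‖BLS_F js (fun j => (m j : ℂ) * I * α k j) m x‖ ^ 2 * Real.exp (-(x / T) ^ 2) ≤
      Real.sqrt Real.pi * T * (Λ ^ 2 * S) := by
    refine (BLS_two h3 js ks (fun k j => (m j : ℂ) * I * α k j) m T hT0).trans ?_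
    refine mul_le_mul_of_nonneg_left ?_ (by positivity)
    rw [hS, Finset.mul_sum]
    refine Finset.sum_le_sum (fun j hj => ?_)
    rw [Finset.mul_sum]
    refine Finset.sum_le_sum (fun j' hj' => ?_)
    rw [← mul_assoc]
    refine mul_le_mul_of_nonneg_right ?_ (Real.exp_pos _).le
    have e : ∑ k ∈ ks, (m j : ℂ) * I * α k j * (starRingEnd ℂ) ((m j' : ℂ) * I * α k j') =
        ((m j * m j' : ℝ) : ℂ) * ∑ k ∈ ks, α k j * (starRingEnd ℂ) (α k j') := by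
      rw [Finset.mul_sum]
      refine Finset.sum_congr rfl (fun k _ => ?_)
      simp only [map_mul, conj_ofReal, conj_I]
      push_cast
      linear_combination (-(m j : ℂ) * (m j' : ℂ) * α k j * (starRingEnd ℂ) (α k j')) * I_sq
    rw [e, norm_mul, norm_real]
    refine mul_le_mul_of_nonneg_right ?_ (norm_nonneg _)
    rw [Real.norm_eq_abs, abs_mul, sq]
    exact mul_le_mul (hm j hj) (hm j' hj') (abs_nonneg _) (by linarith)
  have hmain : ∑ k ∈ ks, ∑ t ∈ W, ‖BLS_F js (α k) m t‖ ^ 2 ≤ Real.exp 9 *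
      (2 * (Real.sqrt Real.pi * T * S) + 1 / 2 * (Real.sqrt Real.pi * T * (Λ ^ 2 * S))) := by
    calc ∑ k ∈ ks, ∑ t ∈ W, ‖BLS_F js (α k) m t‖ ^ 2 ≤ ∑ k ∈ ks, Real.exp 9 *
        (2 * (∫ x : ℝ, ‖BLS_F js (α k) m x‖ ^ 2 * Real.exp (-(x / T) ^ 2)) +
        1 / 2 * (∫ x : ℝ, ‖BLS_F js (fun j => (m j : ℂ) * I * α k j) m x‖ ^ 2 * Real.exp (-(x / T) ^ 2))) :=
          Finset.sum_le_sum (fun k _ => BLS_one h1 h2 h3 js (α k) m T W hT hW)
      _ = Real.exp 9 * (2 * (∑ k ∈ ks, ∫ x : ℝ, ‖BLS_F js (α k) m x‖ ^ 2 * Real.exp (-(x / T) ^ 2)) +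
        1 / 2 * (∑ k ∈ ks, ∫ x : ℝ, ‖BLS_F js (fun j => (m j : ℂ) * I * α k j) m x‖ ^ 2 *
          Real.exp (-(x / T) ^ 2))) := by
          rw [← Finset.mul_sum, Finset.sum_add_distrib, ← Finset.mul_sum, ← Finset.mul_sum]
      _ ≤ _ := by
          refine mul_le_mul_of_nonneg_left ?_ (Real.exp_pos _).le
          linarith
  have hΛ2 : 1 ≤ Λ ^ 2 := one_le_pow₀ hΛ
  have hfin : Real.exp 9 * (2 * (Real.sqrt Real.pi * T * S) + 1 / 2 * (Real.sqrt Real.pi * T * (Λ ^ 2 * S))) ≤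
      10 ^ 5 * T * Λ ^ 2 * S := by
    have hq : 0 ≤ Real.exp 9 * Real.sqrt Real.pi := by positivity
    have hTS : 0 ≤ T * S := by positivity
    calc Real.exp 9 * (2 * (Real.sqrt Real.pi * T * S) + 1 / 2 * (Real.sqrt Real.pi * T * (Λ ^ 2 * S)))
        = (Real.exp 9 * Real.sqrt Real.pi * (T * S)) * (2 + 1 / 2 * Λ ^ 2) := by ring
      _ ≤ (Real.exp 9 * Real.sqrt Real.pi * (T * S)) * (5 / 2 * Λ ^ 2) :=
          mul_le_mul_of_nonneg_left (by linarith) (mul_nonneg hq hTS)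
      _ = (Real.exp 9 * Real.sqrt Real.pi * (5 / 2)) * (T * Λ ^ 2 * S) := by ring
      _ ≤ 10 ^ 5 * (T * Λ ^ 2 * S) := mul_le_mul_of_nonneg_right BLS_num (by positivity)
      _ = 10 ^ 5 * T * Λ ^ 2 * S := by ring
  exact hmain.trans hfin

end Pool.Agent.ZD
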